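import Pool.Agent.H480Z.MonsterAux

set_option autoImplicit false

namespace Pool.Agent.Results.MP_b8022a_al.Hereditary

open MeasureTheory Pool.Agent.H480Z.Monster

/-- Gromov's random monster group (labels reduced words of length `j`, finite connected
`d`-regular graphs) has hereditary super-rigidity with respect to every countable group `G`. -/
theorem result (d k j : ℕ) (hd : 3 ≤ d) (hk : 2 ≤ k) (hj : 1 ≤ j)
    (V : ℕ → Type) [∀ n, Finite (V n)] (Ω : ∀ n, SimpleGraph (V n))
    (hconn : ∀ n, (Ω n).Connected) (hdeg : ∀ n v, ((Ω n).neighborSet v).ncard = d)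
    (G : Type*) [Group G] [Countable G] :
    ∀ᵐ α ∂(labelMeasure (reducedLabels k j hk) Ω :
        Measure (∀ n, Labelling (reducedLabels k j hk) (Ω n))),
      ∀ H : Subgroup (monsterGroup α), H.FiniteIndex → ∀ φ : H →* G, Finite φ.range :=
  hereditary (spread_reduced hk hj)
    (infinite_cyc_of_degree hconn fun n v => (hdeg n v).symm ▸ le_trans (by norm_num) hd) G

end Pool.Agent.Results.MP_b8022a_al.Hereditary
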